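import Pool.Agent.Y508.FP.Stm

/-!
# Job 4622 (FP-APX): polygonal approximation of the curve
-/

set_option autoImplicit false
open MeasureTheory Metric Set Filter Topology

namespace Pool.Agent.Y737.FP
open Pool.Agent.Y508 Pool.Agent.Y508.FP

/-- the embedding of a space of smaller dimension -/
noncomputable def emb {d : ℕ} (n : ℕ) (v : EuclideanSpace ℝ (Fin d)) : EuclideanSpace ℝ (Fin (d + n)) :=
  WithLp.toLp 2 (Fin.append (fun i => v i) fun _ => 0)

theorem dist_emb {d : ℕ} (n : ℕ) (v w : EuclideanSpace ℝ (Fin d)) : dist (emb n v) (emb n w) = dist v w := by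
  rw [EuclideanSpace.dist_eq, EuclideanSpace.dist_eq, Fin.sum_univ_add]
  unfold emb
  simp

theorem noAlt_sub {N n : ℕ} {y : ℕ → EuclideanSpace ℝ (Fin N)} (h : NoAlt n y) (m : EuclideanSpace ℝ (Fin N)) :
    NoAlt n (fun i => y i - m) := by
  intro e a b c d t hab hbc hcd hdn h1 h2 h3 h4
  simp only [inner_sub_right] at h1 h2 h3 h4
  exact h e a b c d (t + inner ℝ e m) hab hbc hcd hdn (by linarith) (by linarith) (by linarith) (by linarith)

theorem apx (h1 : MajStm) (h2 : PlnStm) (h3 : PolyStm) : ApxStm := by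
  intro d γ ℓ hℓ hγ hγ01 hvar hfar ε hε
  have huc := isCompact_Icc.uniformContinuousOn_of_continuous hγ
  rw [Metric.uniformContinuousOn_iff] at huc
  obtain ⟨δ, hδ, huc⟩ := huc ε hε
  obtain ⟨m, hm⟩ := exists_nat_one_div_lt hδ
  set n : ℕ := m + 1 with hn
  have hnR : (0 : ℝ) < n := by
    rw [hn]
    positivity
  have hnδ : 1 / (n : ℝ) < δ := by
    rw [hn]
    push_cast
    exact hm
  let u : ℕ → ℝ := fun i => (i : ℝ) / n
  let w : ℕ → EuclideanSpace ℝ (Fin d) := fun i => γ (u i)
  have hu : ∀ i ≤ n, u i ∈ Icc (0 : ℝ) 1 := by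
    intro i hi
    refine ⟨by positivity, ?_⟩
    rw [div_le_one hnR]
    exact_mod_cast hi
  have hun : u n = 1 := div_self hnR.ne'
  have hu0 : u 0 = 0 := by simp [u]
  have hw0 : w n = w 0 := by
    change γ (u n) = γ (u 0)
    rw [hun, hu0, hγ01]
  have hstep : ∀ i < n, dist (w i) (w (i + 1)) ≤ ε := by
    intro i hi
    refine (huc (u i) (hu i hi.le) (u (i + 1)) (hu (i + 1) hi) ?_).le
    rw [Real.dist_eq]
    have e1 : u i - u (i + 1) = -(1 / n) := by
      simp only [u]
      push_cast
      ring
    rw [e1, abs_neg, abs_of_pos (by positivity)]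
    exact hnδ
  -- the polygon in a space of large dimension
  obtain ⟨y, hyA, hye, hye0, hyd⟩ := h1 n (d + n) (by omega) (by omega) (fun i => emb n (w i)) (ε ^ 2) (by positivity)
  simp only [dist_emb] at hye hye0 hyd
  obtain ⟨z, hzA, hzd⟩ := h2 n (d + n) y hyA
  have hze : ∀ i, i + 1 < n → dist (z i) (z (i + 1)) ≤ dist (w i) (w (i + 1)) := fun i hi => by
    rw [hzd i (by omega) (i + 1) hi]
    exact hye i hi
  have hze0 : dist (z (n - 1)) (z 0) ≤ dist (w (n - 1)) (w 0) := by
    rw [hzd (n - 1) (by omega) 0 (by omega)]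
    exact hye0
  have hlast : dist (w (n - 1)) (w 0) ≤ ε := by
    have := hstep (n - 1) (by omega)
    have e1 : n - 1 + 1 = n := by omega
    rwa [e1, hw0] at this
  -- the length
  have hlen : ∀ z' : ℕ → E2, (∀ i < n, ∀ j < n, dist (z' i) (z' j) = dist (z i) (z j)) → len n z' ≤ ℓ := by
    intro z' hz'
    have e1 : len n z' ≤ ∑ i ∈ Finset.range n, dist (w i) (w (i + 1)) := by
      unfold len
      have e2 : ∑ i ∈ Finset.range n, dist (w i) (w (i + 1)) =
          (∑ i ∈ Finset.range (n - 1), dist (w i) (w (i + 1))) + dist (w (n - 1)) (w 0) := by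
        have e3 : Finset.range n = Finset.range ((n - 1) + 1) := by rw [Nat.sub_add_cancel (by omega)]
        rw [e3, Finset.sum_range_succ]
        have e4 : n - 1 + 1 = n := by omega
        rw [e4, hw0]
      rw [e2]
      refine add_le_add (Finset.sum_le_sum fun i hi => ?_) ?_
      · have hi' := Finset.mem_range.1 hi
        rw [hz' i (by omega) (i + 1) (by omega)]
        exact hze i (by omega)
      · rw [hz' (n - 1) (by omega) 0 (by omega)]
        exact hze0
    refine e1.trans ?_
    have e5 : ∑ i ∈ Finset.range n, edist (γ (u (i + 1))) (γ (u i)) ≤ ENNReal.ofReal ℓ := by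
      refine (eVariationOn.sum_le_of_monotoneOn_Iic (f := γ) (s := Icc 0 1) (n := n) (u := u) ?_ ?_).trans hvar
      · intro i _ j _ hij
        exact div_le_div_of_nonneg_right (by exact_mod_cast hij) hnR.le
      · intro i hi
        exact hu i hi
    have e6 : ∑ i ∈ Finset.range n, edist (γ (u (i + 1))) (γ (u i)) =
        ENNReal.ofReal (∑ i ∈ Finset.range n, dist (w i) (w (i + 1))) := by
      rw [ENNReal.ofReal_sum_of_nonneg fun i _ => dist_nonneg]
      refine Finset.sum_congr rfl fun i _ => ?_
      rw [edist_dist, dist_comm]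
    rw [e6] at e5
    exact (ENNReal.ofReal_le_ofReal_iff hℓ).1 e5
  -- translation
  obtain ⟨-, c, hc⟩ := h3 n z ε (by omega)
    (fun i hi => (hze i hi).trans (hstep i (by omega))) (hze0.trans hlast)
  have hzz : ∀ i < n, ∀ j < n, dist (z i - c) (z j - c) = dist (z i) (z j) := fun i _ j _ => dist_sub_right _ _ _
  obtain ⟨hW, -⟩ := h3 n (fun i => z i - c) ε (by omega)
    (fun i hi => by
      rw [dist_sub_right]
      exact (hze i hi).trans (hstep i (by omega)))
    (by
      rw [dist_sub_right]
      exact hze0.trans hlast)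
  refine ⟨n, fun i => z i - c, w, ?_⟩
  refine ⟨by omega, noAlt_sub hzA c, ?_, ?_, ?_, ?_, ?_, ?_, ?_⟩
  · intro i hi
    exact ⟨u i, hu i hi.le, rfl⟩
  · intro i hi
    rw [dist_sub_right]
    exact (hze i hi).trans (hstep i (by omega))
  · rw [dist_sub_right]
    exact hze0.trans hlast
  · intro i hi j hj
    rw [dist_sub_right]
    have key : ∀ i j, i < j → j < n → dist (w i) (w j) ≤ dist (z i) (z j) + ε := by
      intro i j hij hj
      rcases Nat.lt_or_ge (i + 1) j with h | h
      · by_cases h0 : i = 0 ∧ j + 1 = n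
        · obtain ⟨rfl, h0⟩ := h0
          have e1 : j = n - 1 := by omega
          rw [e1, dist_comm]
          have := dist_nonneg (x := z 0) (y := z (n - 1))
          linarith
        · have h5 := hyd i j h hj h0
          rw [← hzd i (by omega) j hj] at h5
          have h6 : dist (w i) (w j) ^ 2 ≤ (dist (z i) (z j) + ε) ^ 2 := by
            have h7 := dist_nonneg (x := z i) (y := z j)
            nlinarith
          exact le_of_sq_le_sq h6 (by positivity)
      · have e1 : j = i + 1 := by omega
        rw [e1]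
        have h7 := dist_nonneg (x := z i) (y := z (i + 1))
        have h8 := hstep i (by omega)
        linarith
    rcases Nat.lt_trichotomy i j with h | h | h
    · exact key i j h hj
    · rw [h, dist_self, dist_self]
      linarith
    · rw [dist_comm (w i), dist_comm (z i)]
      exact key j i h hi
  · intro i hi
    obtain ⟨t, ht, hd⟩ := hfar (u i) (hu i hi.le)
    rcases ht.2.eq_or_lt with h | h
    · refine ⟨0, by omega, ?_⟩
      rw [h, ← hγ01, ← hu0] at hd
      change 1 ≤ dist (w i) (w 0) at hd
      linarith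
    · have hfl : ⌊(n : ℝ) * t⌋₊ < n := by
        rw [Nat.floor_lt (mul_nonneg hnR.le ht.1)]
        nlinarith
      refine ⟨⌊(n : ℝ) * t⌋₊, hfl, ?_⟩
      set j := ⌊(n : ℝ) * t⌋₊ with hj
      have h1 : (j : ℝ) ≤ n * t := Nat.floor_le (mul_nonneg hnR.le ht.1)
      have h2 : (n : ℝ) * t < j + 1 := Nat.lt_floor_add_one _
      have h3 : dist t (u j) < δ := by
        rw [Real.dist_eq]
        have e1 : t - u j = (n * t - j) / n := by
          simp only [u]
          field_simp
        rw [e1, abs_of_nonneg (div_nonneg (by linarith) hnR.le)]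
        refine lt_trans ?_ hnδ
        exact div_lt_div_of_pos_right (by linarith) hnR
      have h4 := huc t ht (u j) (hu j hfl.le) h3
      have h5 := dist_triangle (γ (u i)) (γ (u j)) (γ t)
      rw [dist_comm (γ (u j)) (γ t)] at h5
      change 1 - ε ≤ dist (γ (u i)) (γ (u j))
      linarith
  · exact hW.trans (hlen _ hzz)
  · intro i hi
    rw [mem_closedBall_zero_iff, ← dist_eq_norm]
    have h5 := hlen z fun _ _ _ _ => rfl
    have h6 := hc i hi
    linarith

end Pool.Agent.Y737.FP
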